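import Pool.Agent.Helper97.Tate.Goals

/-!
# Project FewPoints (MP_d3128a_ag), packet TATE-THC (helper96)
-/

set_option autoImplicit false

namespace Pool.Agent.Helper96.Tate.THC

open Pool.Agent.Helper97.Tate

noncomputable section

/-- `l (l - 1) / 2` as a number `m` with `2 m = l (l - 1)`. -/
theorem tri_spec (l : ℤ) : 2 * (l * (l - 1) / 2) = l * (l - 1) := by
  have h : (2 : ℤ) ∣ l * (l - 1) := by
    have h1 := Int.even_mul_pred_self l
    exact h1.two_dvd
  exact Int.mul_ediv_cancel' h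

theorem qe_succ (κ : ℕ) (r l : ℤ) : qe κ r (l + 1) = qe κ r l + (r + κ * l) := by
  unfold qe
  have h1 := tri_spec l
  have h2 := tri_spec (l + 1)
  have h3 : (l + 1) * (l + 1 - 1) / 2 = l * (l - 1) / 2 + l := by
    have : 2 * ((l + 1) * (l + 1 - 1) / 2) = 2 * (l * (l - 1) / 2 + l) := by
      rw [h2, mul_add, h1]; ring
    linarith
  rw [h3]
  ring

theorem qe_bounds (κ : ℕ) (r l : ℤ) (hr : 0 ≤ r) (hk : r < κ) :
    l - 1 ≤ qe κ r l ∧ -l ≤ qe κ r l := by
  unfold qe
  have h1 := tri_spec l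
  set m := l * (l - 1) / 2 with hm
  have hκ : (1 : ℤ) ≤ κ := by linarith
  have hm0 : 0 ≤ m := by
    rcases le_or_gt l 0 with h | h
    · nlinarith
    · have : 0 ≤ l - 1 := by linarith
      nlinarith
  rcases le_or_gt l 0 with h | h
  · -- `l ≤ 0`
    have h2 : 0 ≤ m + l := by nlinarith
    have h4 : -l ≤ r * l + κ * m := by
      have h5 : ((κ : ℤ) - 1) * l ≤ r * l := by nlinarith
      nlinarith
    constructor
    · linarith
    · exact h4
  · -- `1 ≤ l`
    have h6 : l - 1 ≤ m := by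
      have : 0 ≤ (l - 1) * (l - 2) := by
        rcases eq_or_lt_of_le (show (1 : ℤ) ≤ l from h) with h7 | h7
        · rw [← h7]; norm_num
        · have h8 : (0 : ℤ) ≤ l - 2 := by linarith
          have h9 : (0 : ℤ) ≤ l - 1 := by linarith
          exact mul_nonneg h9 h8
      nlinarith
    have h7 : m ≤ κ * m := by nlinarith
    have h8 : 0 ≤ r * l := mul_nonneg hr h.le
    constructor
    · linarith
    · linarith

theorem coeff_term {k : Type} [Field k] (a : k) (s n : ℤ) :
    (LaurentPolynomial.C a * LaurentPolynomial.T s : LaurentPolynomial k).coeff n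
      = if s = n then a else 0 := by
  rw [← LaurentPolynomial.single_eq_C_mul_T, AddMonoidAlgebra.coeff_single,
    Finsupp.single_apply]

theorem cf_Th {k : Type} [Field k] (κ : ℕ) (r : ℤ) (c : k) (hr : 0 ≤ r) (hk : r < κ)
    (N n : ℤ) : cf (Th κ r c) N n =
    if (κ : ℤ) ∣ n - r ∧ qe κ r ((n - r) / κ) = N then c ^ ((n - r) / κ) else 0 := by
  have hκ : (κ : ℤ) ≠ 0 := by
    have : (0 : ℤ) < κ := by linarith
    exact this.ne'
  rcases lt_or_ge N 0 with hN | hN
  · rw [cf, if_neg (not_le.2 hN), if_neg]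
    rintro ⟨-, h⟩
    have h1 := qe_bounds κ r ((n - r) / κ) hr hk
    rw [h] at h1
    rcases le_or_gt ((n - r) / (κ : ℤ)) 0 with h2 | h2
    · linarith [h1.2]
    · linarith [h1.1]
  · obtain ⟨M, rfl⟩ := Int.eq_ofNat_of_zero_le hN
    rw [cf, if_pos hN, Int.toNat_natCast, Th, PowerSeries.coeff_mk, AddMonoidAlgebra.coeff_sum,
      Finsupp.finsetSum_apply]
    have h1 : ∀ l : ℤ, ((if qe κ r l = (M : ℤ) then
        LaurentPolynomial.C (c ^ l) * LaurentPolynomial.T (r + κ * l) else 0 :
          LaurentPolynomial k)).coeff n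
        = if qe κ r l = (M : ℤ) ∧ r + κ * l = n then c ^ l else 0 := by
      intro l
      by_cases h : qe κ r l = (M : ℤ)
      · rw [if_pos h, coeff_term]
        by_cases h2 : r + κ * l = n
        · rw [if_pos h2, if_pos ⟨h, h2⟩]
        · rw [if_neg h2, if_neg (fun h3 => h2 h3.2)]
      · rw [if_neg h, if_neg (fun h3 => h h3.1)]
        rfl
    rw [Finset.sum_congr rfl fun l _ => h1 l]
    by_cases hd : (κ : ℤ) ∣ n - r ∧ qe κ r ((n - r) / κ) = M
    · rw [if_pos hd]
      obtain ⟨hd1, hd2⟩ := hd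
      set l0 := (n - r) / (κ : ℤ) with hl0
      have hl0' : (κ : ℤ) * l0 = n - r := Int.mul_ediv_cancel' hd1
      have hmem : l0 ∈ Finset.Icc (-(M : ℤ)) (M + 1) := by
        have h2 := qe_bounds κ r l0 hr hk
        rw [hd2] at h2
        rw [Finset.mem_Icc]
        constructor <;> linarith [h2.1, h2.2]
      rw [Finset.sum_eq_single_of_mem l0 hmem]
      · rw [if_pos ⟨hd2, by linarith⟩]
      · intro l _ hl
        rw [if_neg]
        rintro ⟨-, h3⟩
        apply hl
        have h4 : (κ : ℤ) * l = κ * l0 := by linarith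
        exact mul_left_cancel₀ hκ h4
    · rw [if_neg hd]
      refine Finset.sum_eq_zero fun l _ => ?_
      rw [if_neg]
      rintro ⟨h2, h3⟩
      apply hd
      have h4 : n - r = κ * l := by linarith
      refine ⟨⟨l, h4⟩, ?_⟩
      rw [h4, Int.mul_ediv_cancel_left _ hκ]
      exact h2

/-- **THC** -/
theorem t : S_THC := by
  intro k _ κ r c hc hr hk
  have hκ : (κ : ℤ) ≠ 0 := by
    have : (0 : ℤ) < κ := by linarith
    exact this.ne'
  refine ⟨cf_Th κ r c hr hk, ?_, ?_⟩
  · intro N n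
    rw [cf_Th κ r c hr hk, cf_Th κ r c hr hk]
    by_cases hd : (κ : ℤ) ∣ n - r
    · obtain ⟨l, hl⟩ := hd
      have h1 : n + κ - r = κ * (l + 1) := by rw [mul_add, ← hl]; ring
      rw [h1, hl, Int.mul_ediv_cancel_left _ hκ, Int.mul_ediv_cancel_left _ hκ, qe_succ]
      have h2 : r + κ * l = n := by linarith
      rw [h2]
      by_cases h3 : qe κ r l + n = N
      · rw [if_pos ⟨dvd_mul_right _ _, h3⟩, if_pos ⟨dvd_mul_right _ _, by linarith⟩,
          zpow_add_one₀ hc, mul_comm]
      · rw [if_neg (fun h => h3 h.2), if_neg (fun h => h3 (by linarith [h.2])), mul_zero]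
    · have h1 : ¬ (κ : ℤ) ∣ n + κ - r := by
        intro h
        apply hd
        have h2 : n - r = (n + κ - r) - κ := by ring
        rw [h2]
        exact dvd_sub h (dvd_refl _)
      rw [if_neg (fun h => h1 h.1), if_neg (fun h => hd h.1), mul_zero]
  · rw [← PowerSeries.coeff_zero_eq_constantCoeff_apply, Th, PowerSeries.coeff_mk]
    have h1 : Finset.Icc (-((0 : ℕ) : ℤ)) (((0 : ℕ) : ℤ) + 1) = {0, 1} := by decide
    rw [h1, Finset.sum_pair (by norm_num)]
    have h2 : qe κ r 0 = 0 := by simp [qe]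
    have h3 : qe κ r 1 = r := by simp [qe]
    rw [h2, h3, if_pos (by norm_num)]
    by_cases hr0 : r = 0
    · subst hr0
      simp
    · rw [if_neg (by exact_mod_cast hr0), if_neg hr0]
      simp

end

end Pool.Agent.Helper96.Tate.THC
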